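import Pool.Agent.U68.BC.Num
import Pool.Agent.U68.BC.Geo
import Pool.Agent.U68.BC.Gal

/-!
# Bloch's conjecture for correspondences: group rings of abelian covers of rational surfaces

Let `S` be the plane blown up in two points, or the plane, or `P¹ × P¹`, or the plane blown up in one point
(all del Pezzo surfaces of degree at least seven), with the affine coordinates `x`, `y` of the complement of
the boundary (the toric boundary of self-intersection `-1`). Let `X → S` be an abelian cover, with any
finite group, of any degree and with any branch curves: it is given by the equations `f i (x, y)` of the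
branch curves and by elements `g i` of the group `G` of the characters; the character `χ : G → ℤ / n`
corresponds to the cyclic quotient `Y_χ` of `X`, the surface `z ^ n = ∏ i, f i (x, y) ^ χ (g i)`, and, by
Pardini, to the part `H⁰ (S, K_S + L_χ)` of `H⁰ (X, ω_X)`. As explained in
`MP_7ebcb6_ag.TwoPointBlowupCovers` this part is zero if and only if one of the sums
`∑ deg_x (f i) {χ (g i) / n}`, `∑ deg_y (f i) {χ (g i) / n}` is at most `1` or the sum
`∑ deg (f i) {χ (g i) / n}` is at most `2` (`NoTwoForms`).

An element `Γ = ∑ Γ_g [g]` of the group ring with rational coefficients of the covering group is a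
correspondence on `X`. (We write it as an element of `ℚ[G']`, where `G'` is the group which is dual
to the group of the characters; in the theorem `G` is any abelian group, the characters are the
homomorphisms to `ℤ / n`, and the `g i` are elements of `G`.) It acts on the `χ`-part of the 2-forms and of the
zero-cycles by the number `eigenvalue Γ χ`, so `[Γ]_*^{2,0} = 0` if and only if the 2-forms of all the
characters with `eigenvalue Γ χ ≠ 0` vanish. No assumption is made on the other characters: `p_g (X)` is
arbitrary.

Theorem: in this case the quotient `Y_χ` is dominated by a product of two curves for every `χ` with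
`eigenvalue Γ χ ≠ 0`, with the possible exception of the characters of order six of the type
`z ^ 6 = F (x) G (y) ^ 5 h (x, y) ^ 3`, `deg F, deg G ≤ 3`, `h` of bidegree `(1, 1)` (`OfOrderSix`).

If there are no such exceptions, `Γ` acts by zero on the Albanese kernel of `X`: the motive of `Y_χ` is
finite dimensional (Kimura), the Galois orbit of `χ` has no 2-forms, so this part of the transcendental motive
`t²` is zero; and this is the `χ`-part of the Albanese kernel of `X` (these facts are known and not
formalised). This is the open direction of the question for these `X` and `Γ`.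

Proof. Since `Γ` is rational, `eigenvalue Γ (u χ) ≠ 0` for all units `u` modulo `n`. The numerical theorem
`numeric_units` uses the alternative for the multiples by units only: the fibres of one of the two pencils
have at most three branch points, or `Y_χ` is a cover of the plane with `D (χ), D (-χ) ≤ 2`, or all branch
curves are fibres, or the sum of the distances of six residues to the nearest integers is at most
one for all units; since the average of each of them over the units is at least `1 / 6` (theorem of helper15,
`Pool.Agent.U15.DP.avg_main`) they are all of order six.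
-/

set_option autoImplicit false

namespace Pool.Agent.Results.MP_31564d_ag.AbelianCovers

open Pool.Agent.N197.Pln Pool.Agent.U15.DP Pool.Agent.U68.BC MvPolynomial

/-- The part of the 2-forms which belongs to the residues `c i` is zero. -/
def NoTwoForms {ι : Type} [Fintype ι] {n : ℕ} (f : ι → MvPolynomial (Fin 2) ℂ) (c : ι → ZMod n) :
    Prop :=
  lineDegree n (fun i => (f i).degreeOf 0) c ≤ 1 ∨ lineDegree n (fun i => (f i).degreeOf 1) c ≤ 1 ∨
    lineDegree n (fun i => (f i).totalDegree) c ≤ 2

/-- The surface is `z ^ 6 = F (x) G (y) ^ 5 h (x, y) ^ 3` (up to a constant), where the degrees of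
`F` and `G` are at most three and `h` has degree one in `x` and in `y`: the residue of `h` is `n / 2`, the
branch curves `x = const` have the residue `n / 6` and the branch curves `y = const` have `5 n / 6`. -/
def OfOrderSix {ι : Type} [Fintype ι] {n : ℕ} (f : ι → MvPolynomial (Fin 2) ℂ) (c : ι → ZMod n) :
    Prop :=
  ∃ i₀, (f i₀).degreeOf 0 = 1 ∧ (f i₀).degreeOf 1 = 1 ∧ 2 * (c i₀).val = n ∧
    (∀ i, i ≠ i₀ → c i ≠ 0 →
      ((f i).degreeOf 0 ≠ 0 → (f i).degreeOf 1 = 0 ∧ 6 * (c i).val = n) ∧
      ((f i).degreeOf 1 ≠ 0 → (f i).degreeOf 0 = 0 ∧ 6 * (c i).val = 5 * n)) ∧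
    ∃ s : Finset ι, (∀ i, i ∈ s ↔ i ≠ i₀ ∧ c i ≠ 0) ∧
      ∑ i ∈ s, (f i).degreeOf 0 ≤ 3 ∧ ∑ i ∈ s, (f i).degreeOf 1 ≤ 3

theorem val_of_fr {n : ℕ} [NeZero n] {z : ZMod n} {p q : ℕ} (hq : q ≠ 0)
    (h : fr z = (p : ℚ) / q) : q * z.val = p * n := by
  have hn := cast_pos' (n := n)
  have hq' : (q : ℚ) ≠ 0 := by exact_mod_cast hq
  unfold fr at h
  rw [div_eq_div_iff hn.ne' hq'] at h
  have h2 : ((q * z.val : ℕ) : ℚ) = ((p * n : ℕ) : ℚ) := by
    push_cast
    linarith
  exact_mod_cast h2

theorem ofOrderSix_of_exc {ι : Type} [Fintype ι] [DecidableEq ι] {n : ℕ} [NeZero n]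
    {f : ι → MvPolynomial (Fin 2) ℂ} {c : ι → ZMod n}
    (h : Exc (fun i => (f i).degreeOf 0) (fun i => (f i).degreeOf 1) c) : OfOrderSix f c := by
  obtain ⟨i₀, h1, h2, h3, h4, h5, h6⟩ := h
  refine ⟨i₀, h1, h2, ?_, ?_, (Finset.univ.filter (fun i => c i ≠ 0)).erase i₀, ?_, h5, h6⟩
  · have := val_of_fr (p := 1) (q := 2) (by norm_num) (by rw [h3]; norm_num)
    omega
  · intro i hi hci
    refine ⟨fun h0 => ?_, fun h0 => ?_⟩
    · obtain ⟨k1, k2⟩ := (h4 i hi hci).1 h0
      refine ⟨k1, ?_⟩
      have := val_of_fr (p := 1) (q := 6) (by norm_num) (by rw [k2]; norm_num)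
      omega
    · obtain ⟨k1, k2⟩ := (h4 i hi hci).2 h0
      refine ⟨k1, ?_⟩
      exact val_of_fr (p := 5) (q := 6) (by norm_num) (by rw [k2]; norm_num)
  · intro i
    simp

theorem lineDegree_smul {ι : Type} [Fintype ι] {n : ℕ} (d : ι → ℕ) (c : ι → ZMod n) (u : ZMod n) :
    lineDegree n d (fun i => u * c i) = L d c u := by
  unfold lineDegree L fr
  apply Finset.sum_congr rfl
  intro i _
  simp only [mul_div_assoc]

/-- **Bloch's conjecture for the group rings of abelian covers.** Let `f i ≠ 0` be polynomials in
two variables, `g i` elements of an abelian group `G`, `n ≥ 1` and `Γ` a rational element of the group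
ring, such that the parts of the 2-forms vanish for all homomorphisms `χ : G → ℤ / n` with
`eigenvalue Γ χ ≠ 0`. Then for each of these `χ` the surface `z ^ n = ∏ i, f i (x, y) ^ χ (g i)` is
dominated by a product of two curves, or it is of the order six and of the type `OfOrderSix`. -/
theorem result {ι : Type} [Fintype ι] {f : ι → MvPolynomial (Fin 2) ℂ} (hf : ∀ i, f i ≠ 0)
    {G : Type} [AddCommGroup G] (g : ι → G) (Γ : G →₀ ℚ) (n : ℕ) [NeZero n]
    (hΓ : ∀ χ : G →+ ZMod n, eigenvalue Γ χ ≠ 0 → NoTwoForms f (fun i => χ (g i)))
    (χ : G →+ ZMod n) (hχ : eigenvalue Γ χ ≠ 0) :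
    AffineDominatedByCurves n f (fun i => χ (g i)) ∨ OfOrderSix f (fun i => χ (g i)) ∨
      OfOrderSix f (fun i => -χ (g i)) := by
  classical
  have H : ∀ u : (ZMod n)ˣ, 1 < L (fun i => (f i).degreeOf 0) (fun i => χ (g i)) (u : ZMod n) →
      1 < L (fun i => (f i).degreeOf 1) (fun i => χ (g i)) (u : ZMod n) →
      L (fun i => (f i).totalDegree) (fun i => χ (g i)) (u : ZMod n) ≤ 2 := by
    intro u h1 h2
    have h3 := hΓ _ (eigenvalue_ne_zero hχ u)
    simp only [smulChar_apply] at h3
    unfold NoTwoForms at h3
    rw [lineDegree_smul, lineDegree_smul, lineDegree_smul] at h3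
    rcases h3 with h | h | h
    · linarith
    · linarith
    · exact h
  rcases numeric_units (a := fun i => (f i).degreeOf 0) (b := fun i => (f i).degreeOf 1)
    (t := fun i => (f i).totalDegree) (c := fun i => χ (g i))
    (fun i => degreeOf_le_totalDegree _ _) (fun i => degreeOf_le_totalDegree _ _) H with
    h | h | h | h | h | h
  · exact Or.inl (case_fibre (fun i => le_rfl) h)
  · left
    apply AffineDominatedByCurves.swap
    refine case_fibre (d := fun i => (f i).degreeOf 1) ?_ h
    intro i
    have h1 := degreeOf_rename_of_injective (p := f i) (Equiv.swap (0 : Fin 2) 1).injective 1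
    rw [Equiv.swap_apply_right] at h1
    rw [h1]
  · exact Or.inl (case_plane hf h.1 h.2)
  · exact Or.inl (case_product h)
  · exact Or.inr (Or.inl (ofOrderSix_of_exc h))
  · exact Or.inr (Or.inr (ofOrderSix_of_exc h))

end Pool.Agent.Results.MP_31564d_ag.AbelianCovers
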