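import Pool.Agent.U191.CMN.EqMain
import Pool.Agent.U191.CMN.Elliptic

/-!
# Bloch's conjecture for the self-correspondences which commute with a complex multiplication

Let `B` be a curve, and let `M = (B, p)` be a part of its motive `h^1(B)` with complex multiplication by
`ℚ[u] ≅ ℚ[t] / P(t)`, of rank one over `ℚ[u]` (`IsCMMotive`; `P` is separable). For example `u` is given
by an automorphism `σ` of `B` whose eigenvalues on `H^1(B)` are pairwise different, and
`M = h^1(B)`. Let `X` be a surface with a self-correspondence `uX` which is dominated by `M ⊗ h(Y)` for
some curves `Y`, such that `uX` corresponds to the multiplication by `u` on `M`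
(`IsDominatedEquivariantly`), for example a surface with an automorphism `σ_X` and a
dominant rational map `B × Y ⇢ X` which commutes with `σ × 1` and `σ_X`.

**Theorem.** Let `Γ ∈ CH^2(X × X)_ℚ` commute with `uX` in its action on the Albanese kernel. If `Γ` is
homologically equivalent to a degenerate correspondence (over `ℂ`: if `[Γ]^{2,0} = 0`, by the
theorem of Lefschetz on classes of type `(1, 1)`), then `Γ` acts as zero on the Albanese kernel.

So the conjecture of Bloch (Q1) holds for all these `X` and all `Γ` which commute with `uX`; the
geometric genus is arbitrary. Examples: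

(a) The surfaces `X : y^m = x^a (1 - x)^b f(t)` with the automorphism `σ_X(x, y, t) = (x, ζ y, t)` of
order `m`, for any `m`, `a`, `b` and any polynomial `f`. Here `B` is the curve
`w^m = x^a (1 - x)^b`, a covering of the line with three branch points, so that each character of its
group `μ_m` occurs at most once in `H^1(B)`; `Y` is the curve `v^m = f(t)`, and the map is
`y = w v`. The theorem applies to all `Γ ∈ CH^2(X × X)_ℚ` which are invariant under `σ_X × σ_X`.

(b) The elliptic surfaces `y^2 = x^3 + f(t)` with their automorphism of order three, and
`y^2 = x^3 + f(t) x` with their automorphism of order four; they include families of K3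
surfaces of dimension 9 and 5. For elliptic curves with complex multiplication it is proved in
`Pool/Agent/U191/CMN/Elliptic.lean` that `IsCMMotive` holds, with `P = t^2 + d`.

(c) `Γ = g_* - h_*` for automorphisms `g` and `h` of `X` which commute with `σ_X` and act in the same
way on `H^{2,0}(X)`: then `g_* = h_*` on the Albanese kernel.

## Proof

Let `Γ ∈ CH^2((B × Y) × (B × Y'))_ℚ` be homologically trivial, and let it commute with
`u × 1`. The `ℚ[u]`-linear part of `Γ` is `∑ a_n ∑_{i + j = n - 1} (u^j × 1) ∘ Γ ∘ (u^i × 1)`, where
`P = ∑ a_n t^n`. In its value at `(x, t)`, `(y, s)`, an integral over `(x', t')` and `(y', s')`, the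
points of `B` enter through `∑ a_n ∑ u^i(x, x') u^j(y', y)`, and since `M` has rank one over `ℚ[u]`
this is equal to `-∑ a_n ∑ u^i(x, y) u^j(y', x')`. So the linear part of `Γ` is
`-∑ a_n ∑ u^i × η_j` with homologically trivial divisor classes `η_j` on `Y × Y'`, which are sums of
pull-backs from `Y` and `Y'`; it acts as zero on the Albanese kernel. Hence the components of `Γ` from
the part of the Albanese kernel (with complex coefficients) which belongs to a root `α` of `P` to the
part of the same root are zero; the other components are zero because `Γ` commutes with `u`.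
-/

set_option autoImplicit false

open CategoryTheory AlgebraicGeometry

universe u v w

namespace Pool.Agent.Results.MP_31564d_ag.CommutingWithMultiplication

open Pool.Agent.H914 Pool.Agent.H914.VarClass Pool.Agent.H914.VarClass.Obj Pool.Agent.W492.BB
  Pool.Agent.W550.Corr Pool.Agent.TH133 Pool.Agent.Y152.AS Pool.Agent.R904.CM
  Pool.Agent.U191.CMN

/-- **Bloch's conjecture for the self-correspondences which commute with a complex multiplication.**
Let `M = (B, p)` be a part of the motive `h^1(B)` of a curve, of rank one over `ℚ[u] ≅ ℚ[t] / P`, and let
the surface `X` with the self-correspondence `uX` be dominated by motives `M ⊗ h(Y)`, `Y` curves, in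
such a way that `uX` corresponds to `u`. Let `Γ ∈ CH^2(X × X)_ℚ` be homologically equivalent to a
degenerate correspondence, and let it commute with `uX` on the Albanese kernel of `X`. Then `Γ` acts
as zero on the Albanese kernel. -/
theorem result {k : Type u} [Field k] {𝒱 : VarClass k} {C : TheoryData.{u, v, 0} 𝒱 ℚ}
    [IsChowProj C] {K : Type w} [Field K] (H : WeilTheoryData.{u, v, w} C K) [IsWeilProj H]
    (hPic : PicardOfProducts H) (B : 𝒱.Obj) (p u : C.A (B.prod B)) (P : Polynomial ℚ)
    (hM : IsCMMotive C B p u P) (X : 𝒱.Obj) (uX : C.A (X.prod X))
    (hX : IsDominatedEquivariantly C p u X uX) (Γ : C.A (X.prod X)) (hΓ : C.Deg 2 Γ)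
    (hd : IsHomDegenerate H Γ)
    (hcomm : ∀ α : C.A X, InAlbKer C α → C.act Γ (C.act uX α) = C.act uX (C.act Γ α)) :
    KillsAlbKer C Γ :=
  eq_main hM hPic hX hX hΓ hd hcomm

end Pool.Agent.Results.MP_31564d_ag.CommutingWithMultiplication
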