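import Pool.Agent.U598.PS.Cyc
import Pool.Agent.N162.GP.Facts
import Pool.Agent.TH466.QG.Low

/-!
# Bloch's conjecture for correspondences of degree at most a constant times `deg V` to smooth complete
intersections `V` and to their images

Let `V ⊂ ℙ^p` be a smooth complete intersection of dimension `n` of hypersurfaces of degrees
`δ_1, …, δ_q`, with `K_V = O(m)`, `m = ∑ δ_i - p - 1 ≥ 0`; there is no condition on the equations or on
the degrees. More generally, `V` can be any irreducible component of an intersection of hypersurfaces of
degrees at most `δ_1, …, δ_q` in `ℙ^p` which has the regular canonical forms `P(x) ω₀` for all monomials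
`P` of degree `m`, where `∑ δ_i ≤ m + p + 1` (`CutOut`). Let `V ⇢ W` be a dominant rational map of finite
degree `r` to any variety `W`, for instance `W = V`.

Let `X` be any variety and let `Ω` be an algebraic closure of its function field. A correspondence from
`X` to `W` all of whose components dominate `X` and `W` is the same as a finite integral combination
`c = ∑ c(σ) σ` of embeddings `σ : L → Ω` of the function field `L` of `W` over `ℂ` which is invariant
under the Galois group: it is the restriction of the correspondence to the generic point of `X`, a cycle
of generic points of `W` with values in `Ω`. The theorem is about all `c`; no invariance is needed.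
`NullTrace` (`Pool/Agent/N162/BC/Defs.lean`): `∑ c(σ) σ^* ω = 0` for all global canonical forms `ω` on
`W`.

**Theorem.** If `c` has null trace and fewer than `δ_1 ⋯ δ_q / ((2 p) ^ q (4 p) ^ (p (p + 1) / 2) r)`
points then `c = 0`.

So, let `W` be such a surface (`n = 2`), and let `Γ` be a cycle of dimension 2 on `W × W` whose
restriction to the generic point of one of the factors has fewer points than this, not counting the
components which are not dominant over both factors. Then `[Γ]_*^{2,0} = 0` if and only if `Γ` has no
components which dominate both factors. In this case `gr [Γ]_* = 0` on the kernel of the Albanese map,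
because a component over a curve in the first factor acts by zero, and one over a curve in the second
factor acts through the Jacobian of this curve (standard, not formalised here). This is the open
direction of the question for these surfaces and all such `Γ`, of degree up to a positive constant, which
depends only on `p`, times the degree of `V`. In terms of cycles: two different effective cycles of `k`
generic points of `W` each, where `2 k r` is less than this constant times `deg V`, are not rationally
equivalent, by Mumford's theorem.

The starting result `MP_31564d_ag.CompleteIntersections` has the bound `(N + 1) (m + 2 - N) / r` with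
`7 N + 4 ≤ m`, `(M + 1) N < m + M + 2`, which is of the order `m ^ 2` at most, and a condition on the
largest degree. The order of the bound here is that of the degree of `V`, `∏ δ_i`; it is the best
possible one for `W = V`, because the intersection of a complete intersection `V` with a general linear
space of dimension `q` over `Ω` is a cycle of `deg V` generic points with null trace.

## Proof

A cycle on `W` with null trace gives a relation `∑ λ(ρ) P(ρ) = 0`, `λ(ρ) ≠ 0`, between the values of the
forms `P` of degree `m` at generic points `ρ` of `V` with values in `Ω` (traces of forms, as in the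
starting result). So one has to show that fewer than `const · ∏ δ_i` generic points of `V` impose
independent conditions on the forms of degree `m` (`Pool/Agent/U598/PS/Inx.lean`). Here is the proof for
a finite set `Γ` of `k` points `ρ` in the affine space of dimension `p` over `Ω`; it works with all
the points at once. For a point `ρ ∈ Γ` and an integer `e` let `D(ρ, e)` be the dimension at `ρ` of the
zero set of all polynomials of degree at most `e` which vanish on `Γ`, and let
`e_1(ρ) ≥ e_2(ρ) ≥ ⋯ ≥ e_p(ρ)` be the jumps.

1. (`Step`) If the zero set of the polynomials of degree at most `e` has dimension `j` at `ρ` and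
`e' > e` then the zero set of the polynomials of degree at most `e'` on the components of dimension
`j`, for a linear combination of their equations; so `ρ` is an isolated zero of a system of `p`
equations which vanish on `Γ` or on `V`, whose degrees are some of the numbers `e_j(ρ) + 1` and some of
the `δ_i` (`Pts`, `Frame`).

2. (`Pts.exact`) By the residue theorem for the isolated zero (Scheja and Storch), a relation of degree
`m` with non-zero coefficients gives `m < ∑ (degrees - 1)` (Cayley and Bacharach): the function which is
`λ(ρ) ≠ 0` at the points of `Γ` would be zero. If the component is not isolated then `V` is covered by a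
family of positive-dimensional varieties containing generic points, and the forms `P(x) ω₀` are pulled
back to the total space of this family (`Geo`); this gives the same inequality.

3. (`Main.prod_idx`) These inequalities and `∑ δ_i ≤ m + p + 1` imply `δ_i ≤ 2 p e_j(ρ)` for suitable
indices, hence `∏ δ_i ≤ (2 p) ^ q ∏ e_j(ρ)`.

4. (`Grow`, `Union`) The Hilbert function of `Γ` grows: the number of points is at least
`∏_j e_j(ρ) / (4 p) ^ (p (p + 1) / 2)` for one of the points `ρ`. This is proved by Noether's
normalization for the components of the zero set of the polynomials of low degree through the points.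
-/

set_option autoImplicit false

open MvPolynomial Pool.Agent.N162.BC Pool.Agent.N162.GP Pool.Agent.W602.GT

namespace Pool.Agent.Results.MP_31564d_ag.DegreeOrder

/-- `K` is the function field of a variety `V` of dimension `n` in projective `(M + 1)`-space, `x` is
its generic point, `x 0 = 1`. The variety is an irreducible component of an intersection of
hypersurfaces of degrees at most `δ i` (in the affine space of the points with `x 0 = 1`), where
`∑ δ i ≤ m + M + 2`, and there is a nonzero rational canonical form `ω₀` on `V` such that `P(x) ω₀` is a
global section of the canonical bundle of the smooth projective models of `V` for all monomials `P` of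
degree `m`. -/
structure CutOut {M q : ℕ} {K : Type} [Field K] [Algebra ℂ K] (n m : ℕ) (δ : Fin q → ℕ)
    (x : Fin (M + 2) → K) : Prop where
  one : x 0 = 1
  gen : IntermediateField.adjoin ℂ (Set.range x) = ⊤
  dim : Algebra.trdeg ℂ K = n
  sum : ∑ i, δ i ≤ m + M + 2
  component : ∃ F : Fin q → MvPolynomial (Fin (M + 2)) ℂ, (∀ i, (F i).totalDegree ≤ δ i) ∧
    RingHom.ker (aeval x : MvPolynomial (Fin (M + 2)) ℂ →ₐ[ℂ] K) ∈
      (Ideal.span (insert (X 0 - 1) (Set.range F))).minimalPrimes
  forms : ∃ ω₀ : (Fin n → Derivation ℂ K K) → K, IsPluri 1 ω₀ ∧ (∃ D, ω₀ D ≠ 0) ∧
    ∀ f : Fin m → Fin (M + 2), GlobalForm n (fun D => (∏ k, x (f k)) * ω₀ D)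

/-- **Cycles with null trace and few points are zero.** (1) A smooth complete intersection `V` of
dimension `n ≥ 1` of hypersurfaces of the degrees `δ i` in projective `(M + 1)`-space is such a variety
for `m = ∑ δ i - M - 2`. (2) Let `V` be any such variety of dimension `n` in projective
`(M + 1)`-space. Let `L ⊆ K` be the function field of a variety `W`, such that `K` is finite over `L`, let
`Ω` be an algebraically closed field of finite transcendence degree, and let `c` be an integral
combination of embeddings `L → Ω` over `ℂ` with null trace whose number of points is less than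
`∏ δ i / (C [K : L])`, `C = (2 (M + 1)) ^ q (4 (M + 1)) ^ ((M + 1) (M + 2) / 2)`. Then `c = 0`. -/
theorem result :
    (∀ (M n q m : ℕ) (K : Type) [Field K] [Algebra ℂ K]
      (F : Fin q → MvPolynomial (Fin (M + 2)) ℂ) (δ : Fin q → ℕ) (x : Fin (M + 2) → K),
      SmoothCI F δ x → 1 ≤ n → Algebra.trdeg ℂ K = n → n + q = M + 1 → m + M + 2 = ∑ i, δ i →
      CutOut n m δ x) ∧
    ∀ (M n q m t : ℕ) (K L Ω : Type) [Field K] [Algebra ℂ K] [Field L] [Algebra ℂ L]
      [Algebra L K] [IsScalarTower ℂ L K] [FiniteDimensional L K] [Field Ω] [Algebra ℂ Ω]
      [IsAlgClosed Ω] (x : Fin (M + 2) → K) (δ : Fin q → ℕ), CutOut n m δ x →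
      Algebra.trdeg ℂ Ω = t → ∀ c : (L →ₐ[ℂ] Ω) →₀ ℤ, NullTrace n c →
      (2 * (M + 1)) ^ q * ((4 * (M + 1)) ^ ((M + 1) * (M + 2) / 2) *
        (c.support.card * Module.finrank L K)) < ∏ i, δ i → c = 0 := by
  refine ⟨fun M n q m K _ _ F δ x h hn hK hq hm => ?_, ?_⟩
  · obtain ⟨ω₀, hω₀⟩ := fCIA M n q m K F δ x h hn hK hq hm
    refine ⟨h.one, h.gen, hK, hm.ge, ⟨F, fun i => (h.hom i).totalDegree_le,
      Pool.Agent.U598.PS.comp_of_smoothCI h⟩, ω₀, hω₀.pl, hω₀.ne, fun f => ?_⟩
    have h1 : (∏ k, X (f k) : MvPolynomial (Fin (M + 2)) ℂ).IsHomogeneous m := by
      have h2 := IsHomogeneous.prod Finset.univ (fun k : Fin m =>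
        (X (f k) : MvPolynomial (Fin (M + 2)) ℂ)) (fun _ => 1) fun k _ => isHomogeneous_X ℂ (f k)
      rwa [Finset.sum_const, Finset.card_univ, Fintype.card_fin, smul_eq_mul, mul_one] at h2
    have h2 := hω₀.reg _ h1
    have h3 : aeval x (∏ k, X (f k) : MvPolynomial (Fin (M + 2)) ℂ) = ∏ k, x (f k) := by
      rw [map_prod]
      exact Finset.prod_congr rfl fun k _ => aeval_X _ _
    rwa [h3] at h2
  · intro M n q m t K L Ω _ _ _ _ _ _ _ _ _ _ x δ h hΩ c hc hcard
    obtain ⟨ω₀, hpl, hne, hreg⟩ := h.forms
    obtain ⟨F, hF, hcomp⟩ := h.component
    haveI := ess_of_gen h.gen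
    haveI : Algebra.EssFiniteType ℂ L := Pool.Agent.TH466.QG.ess_below (K := K)
    obtain ⟨B, hB⟩ : ∃ B, B = c.support.card * Module.finrank L K + 1 := ⟨_, rfl⟩
    refine Pool.Agent.U598.PS.null_zero (B := B) h.gen h.dim hpl hne hreg (fun S lam hS hlam hSB =>
      Pool.Agent.U598.PS.inx (p := M + 1) (Nat.le_add_left 1 M) h.dim hpl hne h.one
        (fun f P hP => (hreg f).2 P hP) h.gen h.sum hF hcomp S hS lam hlam ?_)
      fTRF fTRS fNTW hΩ hc (by omega)
    refine lt_of_le_of_lt ?_ hcard
    exact Nat.mul_le_mul_left _ (Nat.mul_le_mul_left _ (by omega))

end Pool.Agent.Results.MP_31564d_ag.DegreeOrder
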