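import Pool.Agent.U981.DC.Crit

/-!
# Bloch's conjecture for correspondences on the fibres of abelian coverings

Let `T` be a surface with the function field `K`, and let `Ω` be an algebraic closure of the function
field of a surface `S`. As in `Pool/Agent/N162/BC/Defs.lean`, a correspondence from `S` to `T` is given,
modulo correspondences which are supported over proper closed subsets of `S` and of `T`, by a
finite integral combination `c = ∑ c(σ) σ` of embeddings `σ : K → Ω` over `ℂ`: the restriction of the
correspondence to the geometric generic fibre `T_Ω` of `S × T → S`. The theorem is about all `c`, no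
invariance under the Galois group of `Ω` is needed. `[Γ]^{2,0} = 0` means that `∑ c(σ) σ^* ω = 0` for
all global 2-forms `ω` on `T` (`NullTrace`), and `Rat K Ω` is rational equivalence of zero-cycles on
`T_Ω`, modulo the cycles which are supported on `D_Ω` for a curve `D` on `T`. If `N c ∈ Rat K Ω` for
some `N > 0`, then a multiple of `Γ` is rationally equivalent to the sum of a cycle which is supported
on `S × D` and a cycle which is supported on `D' × T`, for some curves `D`, `D'`, and so `Γ_* = 0` on the
Albanese kernel (Bloch and Srinivas, and the theorem of Roitman on torsion; this is standard and not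
formalised here).

Let `T ⇢ W` be a dominant rational map of finite degree to a surface `W` with the function field
`L`, and let `y_1, y_2` be coordinates on `W`. The function `a` on `T` is *seen by `r` points* if there
are functions `v` on `W`, which separate any `r` generic points of `W`, such that
`v a dy_1 ∧ dy_2` is a global 2-form on `T` (`Seen`). For example, if `W = ℙ²` this holds if
`P(y) a dy_1 ∧ dy_2` is a global 2-form for all polynomials `P` of degree less than `r`; for `r = 1`
it holds if `a dy_1 ∧ dy_2` is a global 2-form.

**Theorem.** Let `c` have null trace, and assume that there are at most `r` fibres of `T ⇢ W` over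
points of `W` with values in `Ω` on which the sum `∑ c(σ) σ(a)` is not zero for some function `a` which is
seen by `r` points; for example, `c` is supported on at most `r` fibres, or it is the sum of such a
cycle and of preimages of cycles on intermediate coverings without 2-forms.

1. Let all relations `∑ m(σ) σ(a) = 0` on one fibre, for all functions `a` which are seen by `r`
points, be sums of pull-backs, with rational coefficients, of cycles on intermediate coverings
`T ⇢ T' ⇢ W` such that all zero-cycles on `T'` are torsion modulo cycles on curves. Then
`N c ∈ Rat K Ω` for some `N > 0`.

2. Let `T ⇢ W` be an abelian covering, that is, `K / L` is a Galois extension with a commutative Galois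
group. The cyclic intermediate coverings are the coverings `W(a^{1/m})` (`IsKummer`). Assume that each
of them is seen, that is, it is given by a function `a` which is seen by `r` points, or is ruled, or its
new zero-cycles, that is, the zero-cycles whose images on all smaller intermediate coverings are zero,
are torsion modulo cycles on curves. Then `N c ∈ Rat K Ω` for some `N > 0`.

3. Let `T ⇢ W` be an abelian covering. Then Q1 holds, in this form, for all correspondences which are
supported on one fibre (these are the correspondences `Γ ⊆ S ×_W T`, for all maps `S ⇢ W`; if `S = T`
with the same map, these are the combinations of the elements of the Galois group) if and only if for each cyclic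
intermediate covering `T' = W(a^{1/m})` which is not seen (that is, there is no global 2-form
`a' dy_1 ∧ dy_2` with `T' = W(a'^{1/m'})`) the new zero-cycles on `T'` are torsion modulo cycles on curves.
The last property is Bloch's conjecture for the new part of the motive of `T'`, for which `H^{2,0}`
is zero. So for one fibre Q1 is reduced to the classical case of Bloch's conjecture, without any
assumption on `p_g(T)`, on `W` or on the branch curves.

Examples. (a) Let `T` be the covering `w_1^2 = F_1(x, y)`, `w_2^2 = F_2(x, y)` of the plane, where
`F_1 = 0` is a smooth conic and `F_2 = 0` a smooth curve of degree `2 m ≥ 6` which meets it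
transversally: `T` is a double covering of a quadric surface, and its canonical divisor is
ample. The double coverings given by `w_2` and `w_1 w_2` have the global forms
`P w_2^{-1} dx ∧ dy`, `deg P ≤ m - 3`, and `P (w_1 w_2)^{-1} dx ∧ dy`, `deg P ≤ m - 2`; the plane and the
quadric surface are rational. So `N c ∈ Rat K Ω` holds for all `c` with null trace which are supported
on at most `m - 2` fibres of `T → ℙ²`. More generally, let `T` be the covering
`w_i^2 = F_i`, `i ≤ k`, where the `F_i` define smooth curves of degree `2 m_i` which meet transversally.
The sums `m_I = ∑_{i ∈ I} m_i` are at most `2` for the rational ones among the intermediate double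
planes, and the others are seen by `m_I - 2` points. So the theorem holds for
`r = min {m_I - 2 | m_I ≥ 3}`. (b) If `T` is dominated by a product of two curves, for example a Fermat
surface, then it is known that the new parts in 3 are torsion, since the motive of `T` is
finite-dimensional (Kimura), and one obtains Q1 for all correspondences on one fibre, for any `S`.

## Proof

As the functions `v` separate the points, the relation `∑ c(σ) σ^*(v a dy_1 ∧ dy_2) = 0` implies
that `∑ c(σ) σ(a) = 0` on each fibre. This shows 1, since the pull-back of a rational equivalence is a
rational equivalence (`Pool/Agent/U1/BL`). For an abelian covering with the Galois group `G`, the fibres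
are principal homogeneous spaces for `G`. The algebra `ℚ[G]` is a product of cyclotomic fields, which
correspond to the subgroups `H` of `G` with a cyclic quotient, and to the cyclic intermediate coverings
`T/H`. The component of `c` in this field is a pull-back of a new cycle on `T/H`. If `T/H` is given by a
seen function `a`, then `g(a) = χ(g) a` for a character `χ` with the kernel `H`, and the relation means that
the image of this component under `χ` is zero; so it is zero. This shows 2. For 3. one has to show
that the pull-back of a new cycle on an unseen cyclic covering has null trace. This follows from the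
decomposition of the global 2-forms into eigenforms of `G`.
-/

set_option autoImplicit false
set_option linter.overlappingInstances false

open FF Pool.Agent.W602.GT Pool.Agent.N162.BC Pool.Agent.U981.DC

namespace Pool.Agent.Results.MP_31564d_ag.FibresOfAbelianCovers

/-- `M` is the function field of a ruled surface (a surface which is birational to `B × ℙ¹` for a
curve `B`): it is the field of rational functions in one variable over a subfield `E`. -/
def IsRuled (M : Type) [Field M] [Algebra ℂ M] : Prop :=
  ∃ (E : IntermediateField ℂ M) (t : M), Transcendental E t ∧ IntermediateField.adjoin E {t} = ⊤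

variable {L K Ω : Type} [Field L] [Field K] [Algebra ℂ L] [Algebra ℂ K] [Algebra L K]
  [IsScalarTower ℂ L K] [Field Ω] [Algebra ℂ Ω]

/-- The points of the cycle `c` are on one fibre of `T ⇢ W`. -/
def OnOneFibre (L : Type) [Field L] [Algebra L K] (c : (K →ₐ[ℂ] Ω) →₀ ℤ) : Prop :=
  ∀ σ ∈ c.support, ∀ τ ∈ c.support, ∀ b : L, σ (algebraMap L K b) = τ (algebraMap L K b)

/-- `a dy_1 ∧ dy_2` is a global 2-form on `T`. -/
def IsTwoForm (y : Fin 2 → L) (a : K) : Prop :=
  GlobalForm 2 (stdForm (fun i => algebraMap L K (y i)) a)

/-- **Bloch's conjecture for correspondences on the fibres of abelian coverings.** Let `K` be the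
function field of a surface `T`, let `T ⇢ W` be a rational map of finite degree to the surface `W` with
the function field `L`, let `y_1, y_2` be coordinates on `W`, and let `Ω` be an algebraically closed field
of transcendence degree `2`.

1. Assume that the relations on the fibres which are satisfied by all functions which are seen by
`r` points are sums of pull-backs from intermediate coverings with small zero-cycles. Then
`N c ∈ Rat K Ω` for some `N > 0`, for each `c` with null trace such that there are at most `r` fibres on
which the traces of the functions which are seen by `r` points are not all zero.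

2. The same holds if `K / L` is a Galois extension with a commutative Galois group, and each cyclic
intermediate covering is given by a function which is seen by `r` points, or is ruled, or its new
zero-cycles are torsion modulo cycles on curves.

3. Let `K / L` be a Galois extension with a commutative Galois group. For all `c` with null trace on one
fibre `N c ∈ Rat K Ω` for some `N > 0`, if and only if, for all cyclic intermediate coverings which
are not given by a function `a` such that `a dy_1 ∧ dy_2` is a global 2-form, the new zero-cycles are
torsion modulo cycles on curves. -/
theorem result [FiniteDimensional L K] [Algebra.EssFiniteType ℂ K] [IsAlgClosed Ω]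
    (hΩ : Algebra.trdeg ℂ Ω = 2) {y : Fin 2 → L} (hy : IsTranscendenceBasis ℂ y) :
    (∀ r : ℕ, (∀ (q : L →ₐ[ℂ] Ω) (m : (K →ₐ[ℂ] Ω) →₀ ℤ),
        (∀ a, Seen Ω y r a → fibreTrace m q a = 0) → SumOfPullbacks (Small Ω) m q) →
      ∀ c : (K →ₐ[ℂ] Ω) →₀ ℤ, NullTrace 2 c → numFibres y r c ≤ r →
        ∃ N : ℕ, 0 < N ∧ N • c ∈ Rat K Ω) ∧
    (IsGalois L K → (∀ g h : K ≃ₐ[L] K, g * h = h * g) →
      (∀ r : ℕ, (∀ M : IntermediateField L K, (∃ a, IsKummer M a) →
          (∃ a, IsKummer M a ∧ Seen Ω y r a) ∨ IsRuled M ∨ NewSmall Ω M) →
        ∀ c : (K →ₐ[ℂ] Ω) →₀ ℤ, NullTrace 2 c → numFibres y r c ≤ r →
          ∃ N : ℕ, 0 < N ∧ N • c ∈ Rat K Ω) ∧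
      ((∀ c : (K →ₐ[ℂ] Ω) →₀ ℤ, NullTrace 2 c → OnOneFibre L c →
          ∃ N : ℕ, 0 < N ∧ N • c ∈ Rat K Ω) ↔
        ∀ M : IntermediateField L K, (∃ a, IsKummer M a) →
          (∀ a, IsKummer M a → ¬ IsTwoForm y a) → NewSmall Ω M)) := by
  have hΩ' : Algebra.trdeg ℂ Ω = ((2 : ℕ) : Cardinal) := by rw [hΩ]; norm_num
  refine ⟨fun r hrel c hc hr => general hΩ' hy hc hr hrel, fun hgal hcomm => ⟨?_, ?_⟩⟩
  · intro r hM c hc hr
    refine abelian hcomm (P := Seen Ω y r) (fun a ha q => all_good hΩ' hy hc hr a ha q)
      fun M hKM => ?_
    rcases hM M hKM with h | h | h
    · exact Or.inl h
    · obtain ⟨E, t, ht, htop⟩ := h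
      exact Or.inr fun z _ => ⟨1, one_pos, by
        rw [one_smul]
        exact Pool.Agent.U1.BL.rat_top ht htop z⟩
    · exact Or.inr h
  · exact criterion hcomm hΩ' hy

end Pool.Agent.Results.MP_31564d_ag.FibresOfAbelianCovers
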